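import Mathlib

set_option autoImplicit false

namespace Pool.Agent.Results.MP_dc8297_co.Counter

open Finset

/-- A simple ordered 2-stage graph with both classes `Fin N` is a relation `L`; `L s t` means
that source `s` is joined to target `t`.  It is `k`-regular if all degrees equal `k`. -/
def Regular {N : ℕ} (L : Fin N → Fin N → Prop) [DecidableRel L] (k : ℕ) : Prop :=
  (∀ s, (univ.filter fun t => L s t).card = k) ∧ (∀ t, (univ.filter fun s => L s t).card = k)

/-- A plain path in `L ^ n`: one vertex `p i` in each of the `n + 1` classes, consecutive ones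
joined in the corresponding copy of `L`. -/
def IsPlain {N : ℕ} (L : Fin N → Fin N → Prop) (n : ℕ) (p : Fin (n + 1) → Fin N) : Prop :=
  ∀ i : Fin n, L (p i.castSucc) (p i.succ)

/-- `L ^ n` is externally connected. -/
def ExtConn {N : ℕ} (L : Fin N → Fin N → Prop) (n : ℕ) : Prop :=
  ∀ s t, ∃ p, IsPlain L n p ∧ p 0 = s ∧ p (Fin.last n) = t

/-- `L ^ n` is rearrangeable: every mask (a 2-stage multigraph with edges `e : Fin E` from
`src e` to `tgt e` and the degrees of `L ^ n`) is routed by edge-disjoint plain paths. -/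
def Rearrangeable {N : ℕ} (L : Fin N → Fin N → Prop) [DecidableRel L] (n : ℕ) : Prop :=
  ∀ (E : ℕ) (src tgt : Fin E → Fin N),
    (∀ s, (univ.filter fun e => src e = s).card = (univ.filter fun t => L s t).card) →
    (∀ t, (univ.filter fun e => tgt e = t).card = (univ.filter fun s => L s t).card) →
    ∃ P : Fin E → Fin (n + 1) → Fin N,
      (∀ e, IsPlain L n (P e) ∧ P e 0 = src e ∧ P e (Fin.last n) = tgt e) ∧
      ∀ e e', e ≠ e' → ∀ i : Fin n,
        ¬ (P e i.castSucc = P e' i.castSucc ∧ P e i.succ = P e' i.succ)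

theorem result : ∃ (N k m : ℕ) (L : Fin N → Fin N → Prop) (_ : DecidableRel L),
    1 ≤ k ∧ 1 ≤ m ∧ Regular L k ∧ ExtConn L m ∧ ¬ Rearrangeable L (2 * m) := by
  let B : Fin 6 → Fin 6 → Bool := fun s t => decide ((s = 0 ∧ t = 4) ∨ (s = 3 ∧ t = 1) ∨
      ((s.val < 3 ↔ t.val < 3) ∧ ¬ (s = 0 ∧ t = 1) ∧ ¬ (s = 3 ∧ t = 4)))
  let L : Fin 6 → Fin 6 → Prop := fun s t => B s t = true
  refine ⟨6, 3, 3, L, inferInstance, by norm_num, by norm_num, by
    constructor <;> decide, ?_, ?_⟩
  · have h : ∀ s t : Fin 6, ∃ u v : Fin 6, L s u ∧ L u v ∧ L v t := by decide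
    intro s t
    obtain ⟨u, v, h1, h2, h3⟩ := h s t
    refine ⟨![s, u, v, t], ?_, rfl, rfl⟩
    intro i
    fin_cases i
    exacts [h1, h2, h3]
  · intro h
    obtain ⟨P, hP, hd⟩ := h 18 (fun e => ⟨e.val / 3, by omega⟩)
      (fun e => ⟨(e.val / 3 + 3) % 6, by omega⟩) (by decide) (by decide)
    have hc : ∀ s t : Fin 6, L s t → s.val < 3 → ¬ t.val < 3 → s = 0 ∧ t = 4 := by decide
    have hex : ∀ e : Fin 9, ∃ i : Fin (2 * 3),
        P (e.castLE (by norm_num)) i.castSucc = 0 ∧ P (e.castLE (by norm_num)) i.succ = 4 := by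
      intro e
      obtain ⟨h1, h2, h3⟩ := hP (e.castLE (by norm_num))
      by_contra hno
      have hall : ∀ j : Fin (2 * 3 + 1), (P (e.castLE (by norm_num)) j).val < 3 := by
        intro j
        induction j using Fin.induction with
        | zero => rw [h2]; simp only [Fin.val_castLE]; omega
        | succ i ih =>
          by_contra hj
          exact hno ⟨i, hc _ _ (h1 i) ih hj⟩
      have := hall (Fin.last _)
      rw [h3] at this
      simp only [Fin.val_castLE] at this
      omega
    choose f hf using hex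
    obtain ⟨e, e', hne, he⟩ := Fintype.exists_ne_map_eq_of_card_lt f (by simp)
    refine hd (e.castLE (by norm_num)) (e'.castLE (by norm_num))
      (fun h => hne (Fin.castLE_injective _ h)) (f e) ⟨?_, ?_⟩
    · rw [(hf e).1, he, (hf e').1]
    · rw [(hf e).2, he, (hf e').2]

end Pool.Agent.Results.MP_dc8297_co.Counter
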